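import Pool.Agent.N483.KM.Stm1
import Pool.Agent.R755.KF.P2
import Pool.Agent.H888R2.KT.N0

/-!
# Project KM (helper483), part DA2: integration by parts for the affinity
-/

set_option autoImplicit false
set_option linter.unusedSectionVars false

namespace Pool.Agent.N264.KM

open MeasureTheory Set Filter Topology
open scoped ENNReal InnerProductSpace
open Pool.Agent.R754.KG (E)
open Pool.Agent.R755.KF (zn sd PB S_ZN zn_ok)
open Pool.Agent.R755.KF.P2aux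
open Pool.Agent.N483.KM (lz S_DA2)

variable {k : ℕ} {h B : ℝ} {ν νa νb : Measure (E k)}

/-- the unit vectors -/
noncomputable def ev (j : Fin k) : E k := EuclideanSpace.single j 1

lemma ev_norm (j : Fin k) : ‖ev j‖ = 1 := by simp [ev]

lemma inner_ev (j : Fin k) (y : E k) : ⟪y, ev j⟫_ℝ = y j := by
  simp [ev, EuclideanSpace.inner_single_right]

lemma coord_le (j : Fin k) (y : E k) : |y j| ≤ ‖y‖ := by
  rw [← inner_ev, ← Real.norm_eq_abs]
  calc ‖⟪y, ev j⟫_ℝ‖ ≤ ‖y‖ * ‖ev j‖ := norm_inner_le_norm _ _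
    _ = ‖y‖ := by rw [ev_norm, mul_one]

lemma norm_sq_sum (y : E k) : ‖y‖ ^ 2 = ∑ j, y j ^ 2 := by
  rw [EuclideanSpace.norm_sq_eq]
  simp

lemma dual_norm_sq (L : E k →L[ℝ] ℝ) : ‖L‖ ^ 2 = ∑ j, L (ev j) ^ 2 := by
  obtain ⟨v, rfl⟩ := (InnerProductSpace.toDual ℝ (E k)).surjective L
  rw [LinearIsometryEquiv.norm_map, norm_sq_sum]
  refine Finset.sum_congr rfl fun j _ => ?_
  rw [InnerProductSpace.toDual_apply_apply, inner_ev]

/-- first derivative of the kernel -/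
noncomputable def K1 (h : ℝ) (j : Fin k) (x y : E k) : ℝ := Kn h x y * ((x - y) j / h)

/-- second derivative of the kernel -/
noncomputable def K2 (h : ℝ) (j : Fin k) (x y : E k) : ℝ :=
  Kn h x y * (((x - y) j) ^ 2 / h ^ 2 - 1 / h)

/-- first derivatives of `zn` -/
noncomputable def d1 (h : ℝ) (ν : Measure (E k)) (j : Fin k) (y : E k) : ℝ := ∫ x, K1 h j x y ∂ν

/-- second derivatives of `zn` -/
noncomputable def d2 (h : ℝ) (ν : Measure (E k)) (j : Fin k) (y : E k) : ℝ := ∫ x, K2 h j x y ∂ν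

lemma K1_cont (h : ℝ) (j : Fin k) : Continuous fun p : E k × E k => K1 h j p.1 p.2 := by
  unfold K1
  exact (Kn_cont h).mul (by fun_prop)

lemma K2_cont (h : ℝ) (j : Fin k) : Continuous fun p : E k × E k => K2 h j p.1 p.2 := by
  unfold K2
  exact (Kn_cont h).mul (by fun_prop)

lemma Kd_ev (h : ℝ) (j : Fin k) (x y : E k) : Kd h x y (ev j) = K1 h j x y := by
  simp only [Kd, K1, smul_apply, innerSL_apply_apply, inner_ev, smul_eq_mul]
  ring

lemma K1_norm (hh : 0 < h) (j : Fin k) (x y : E k) : ‖K1 h j x y‖ ≤ (1 + h) / h := by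
  rw [← Kd_ev]
  calc ‖Kd h x y (ev j)‖ ≤ ‖Kd h x y‖ * ‖ev j‖ := ContinuousLinearMap.le_opNorm _ _
    _ ≤ (1 + h) / h := by rw [ev_norm, mul_one]; exact Kd_norm hh x y

lemma K2_norm (hh : 0 < h) (j : Fin k) (x y : E k) : ‖K2 h j x y‖ ≤ 3 / h := by
  have hK := Kn_pos h x y
  have hK1 := Kn_le_one hh x y
  have h1 : Kn h x y * ‖x - y‖ ^ 2 ≤ 2 * h := by
    have hu : ‖x - y‖ ^ 2 / (2 * h) ≤ Real.exp (‖x - y‖ ^ 2 / (2 * h)) := by
      have := Real.add_one_le_exp (‖x - y‖ ^ 2 / (2 * h))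
      linarith
    have h2 : Kn h x y * (‖x - y‖ ^ 2 / (2 * h)) ≤ 1 := by
      calc Kn h x y * (‖x - y‖ ^ 2 / (2 * h)) ≤
          Kn h x y * Real.exp (‖x - y‖ ^ 2 / (2 * h)) := mul_le_mul_of_nonneg_left hu hK.le
        _ = 1 := by rw [Kn, ← Real.exp_add, neg_add_cancel, Real.exp_zero]
    have h3 : Kn h x y * ‖x - y‖ ^ 2 = (Kn h x y * (‖x - y‖ ^ 2 / (2 * h))) * (2 * h) := by
      field_simp
    rw [h3]
    nlinarith
  have h4 : ((x - y) j) ^ 2 ≤ ‖x - y‖ ^ 2 := by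
    rw [← sq_abs ((x - y) j)]
    exact pow_le_pow_left₀ (abs_nonneg _) (coord_le j _) 2
  have h5 : Kn h x y * (((x - y) j) ^ 2 / h ^ 2) ≤ 2 / h := by
    calc Kn h x y * (((x - y) j) ^ 2 / h ^ 2) = (Kn h x y * ((x - y) j) ^ 2) / h ^ 2 := by ring
      _ ≤ (2 * h) / h ^ 2 := by
        apply div_le_div_of_nonneg_right _ (by positivity)
        exact (mul_le_mul_of_nonneg_left h4 hK.le).trans h1
      _ = 2 / h := by field_simp
  have h6 : Kn h x y * (1 / h) ≤ 1 / h := by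
    calc Kn h x y * (1 / h) ≤ 1 * (1 / h) := mul_le_mul_of_nonneg_right hK1 (by positivity)
      _ = 1 / h := one_mul _
  have h7 : 0 ≤ Kn h x y * (1 / h) := by positivity
  have h8 : 0 ≤ Kn h x y * (((x - y) j) ^ 2 / h ^ 2) := by positivity
  have h9 : 3 / h = 2 / h + 1 / h := by ring
  rw [K2, mul_sub, Real.norm_eq_abs, abs_le, h9]
  constructor <;> [skip; skip] <;> have : 0 < 2 / h := by positivity
  · linarith
  · linarith [show 0 < 1 / h by positivity]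

variable [IsProbabilityMeasure ν]

lemma K1_int (hh : 0 < h) (j : Fin k) (y : E k) : Integrable (fun x => K1 h j x y) ν := by
  refine Integrable.of_bound ?_ ((1 + h) / h) (Filter.Eventually.of_forall fun x => K1_norm hh j x y)
  exact ((K1_cont h j).comp (continuous_id.prodMk continuous_const)).aestronglyMeasurable

lemma K2_int (hh : 0 < h) (j : Fin k) (y : E k) : Integrable (fun x => K2 h j x y) ν := by
  refine Integrable.of_bound ?_ (3 / h) (Filter.Eventually.of_forall fun x => K2_norm hh j x y)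
  exact ((K2_cont h j).comp (continuous_id.prodMk continuous_const)).aestronglyMeasurable

lemma d1_eq (hh : 0 < h) (j : Fin k) (y : E k) : fderiv ℝ (zn h ν) y (ev j) = d1 h ν j y := by
  rw [zn_fderiv hh y, ContinuousLinearMap.integral_apply (Kd_int hh y)]
  exact integral_congr_ae (Filter.Eventually.of_forall fun x => Kd_ev h j x y)

/-- the line through `y` -/
lemma line_coord (j : Fin k) (x y : E k) (t : ℝ) : (x - (y + t • ev j)) j = (x - y) j - t := by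
  simp [ev]
  ring

lemma Kn_line (hh : 0 < h) (j : Fin k) (x y : E k) (t : ℝ) :
    HasDerivAt (fun t : ℝ => Kn h x (y + t • ev j)) (K1 h j x (y + t • ev j)) t := by
  have h1 := Kn_deriv hh x (y + t • ev j)
  have h2 : HasDerivAt (fun t : ℝ => y + t • ev j) (ev j) t := by
    simpa using ((hasDerivAt_id t).smul_const (ev j)).const_add y
  have h3 := h1.comp_hasDerivAt t h2
  rw [Kd_ev] at h3
  exact h3

lemma K1_line (hh : 0 < h) (j : Fin k) (x y : E k) (t : ℝ) :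
    HasDerivAt (fun t : ℝ => K1 h j x (y + t • ev j)) (K2 h j x (y + t • ev j)) t := by
  have h1 := Kn_line hh j x y t
  have h2 : HasDerivAt (fun t : ℝ => ((x - y) j - t) / h) (-1 / h) t := by
    simpa using ((hasDerivAt_id t).const_sub ((x - y) j)).div_const h
  have h3 := h1.mul h2
  have e1 : (fun t : ℝ => K1 h j x (y + t • ev j)) =
      (fun t : ℝ => Kn h x (y + t • ev j)) * fun t : ℝ => ((x - y) j - t) / h := by
    funext s
    simp only [K1, line_coord, Pi.mul_apply]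
  rw [e1]
  have e2 : K1 h j x (y + t • ev j) * (((x - y) j - t) / h) + Kn h x (y + t • ev j) * (-1 / h) =
      K2 h j x (y + t • ev j) := by
    simp only [K1, K2, line_coord]
    field_simp
    ring
  rw [← e2]
  exact h3

lemma d1_line (hh : 0 < h) (j : Fin k) (y : E k) :
    HasLineDerivAt ℝ (d1 h ν j) (d2 h ν j y) y (ev j) := by
  unfold HasLineDerivAt
  have h1 := hasDerivAt_integral_of_dominated_loc_of_deriv_le (μ := ν) (𝕜 := ℝ)
    (F := fun t x => K1 h j x (y + t • ev j)) (F' := fun t x => K2 h j x (y + t • ev j))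
    (bound := fun _ => 3 / h) (x₀ := (0 : ℝ)) (s := univ) univ_mem ?_ ?_ ?_ ?_
    (integrable_const _) ?_
  · have h2 := h1.2
    simp only [zero_smul, add_zero] at h2
    exact h2
  · exact Filter.Eventually.of_forall fun t => (K1_int hh j _).aestronglyMeasurable
  · exact K1_int hh j _
  · exact (K2_int hh j _).aestronglyMeasurable
  · exact Filter.Eventually.of_forall fun x t _ => K2_norm hh j x _
  · exact Filter.Eventually.of_forall fun x t _ => K1_line hh j x y t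

lemma d2_cont (hh : 0 < h) (j : Fin k) : Continuous (d2 h ν j) := by
  have hc : ∀ x : E k, Continuous fun y => K2 h j x y := fun x => by
    have h1 : Continuous fun y : E k => ((x, y) : E k × E k) := by fun_prop
    have h2 := (K2_cont h j).comp h1
    exact h2
  have hb : Integrable (fun _ : E k => 3 / h) ν := integrable_const _
  have hm : ∀ y : E k, AEStronglyMeasurable (fun x => K2 h j x y) ν :=
    fun y => (K2_int hh j y).aestronglyMeasurable
  have hn : ∀ y : E k, ∀ᵐ x ∂ν, ‖K2 h j x y‖ ≤ 3 / h :=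
    fun y => Filter.Eventually.of_forall fun x => K2_norm hh j x y
  exact continuous_of_dominated hm hn hb (Filter.Eventually.of_forall hc)

lemma d1_cont (hh : 0 < h) (j : Fin k) : Continuous (d1 h ν j) := by
  have hc : ∀ x : E k, Continuous fun y => K1 h j x y := fun x => by
    have h1 : Continuous fun y : E k => ((x, y) : E k × E k) := by fun_prop
    have h2 := (K1_cont h j).comp h1
    exact h2
  have hb : Integrable (fun _ : E k => (1 + h) / h) ν := integrable_const _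
  have hm : ∀ y : E k, AEStronglyMeasurable (fun x => K1 h j x y) ν :=
    fun y => (K1_int hh j y).aestronglyMeasurable
  have hn : ∀ y : E k, ∀ᵐ x ∂ν, ‖K1 h j x y‖ ≤ (1 + h) / h :=
    fun y => Filter.Eventually.of_forall fun x => K1_norm hh j x y
  exact continuous_of_dominated hm hn hb (Filter.Eventually.of_forall hc)

lemma lz_eq (hh : 0 < h) (y : E k) : lz h ν y = ∑ j, d2 h ν j y := by
  simp only [d2]
  rw [← integral_finsetSum _ fun j _ => K2_int hh j y]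
  refine integral_congr_ae (Filter.Eventually.of_forall fun x => ?_)
  simp only [K2]
  rw [← Finset.mul_sum, Finset.sum_sub_distrib, ← Finset.sum_div, ← norm_sq_sum, mul_comm]
  simp only [Kn, Finset.sum_const, Finset.card_univ, Fintype.card_fin, nsmul_eq_mul, mul_one_div]

/-! ### bounds -/

lemma d1_bd (hh : 0 < h) (hν : PB B ν) (j : Fin k) (y : E k) :
    |d1 h ν j y| ≤ (B + ‖y‖) / h * zn h ν y := by
  rw [← Real.norm_eq_abs, d1, zn_eq, ← integral_const_mul]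
  refine norm_integral_le_of_norm_le ((Kn_int hh y).const_mul _) ?_
  filter_upwards [hν.bdd] with x hx
  have hK := Kn_pos h x y
  rw [K1, norm_mul, Real.norm_of_nonneg hK.le, norm_div, Real.norm_of_nonneg hh.le,
    Real.norm_eq_abs, mul_comm]
  apply mul_le_mul_of_nonneg_right _ hK.le
  apply div_le_div_of_nonneg_right _ hh.le
  calc |(x - y) j| ≤ ‖x - y‖ := coord_le j _
    _ ≤ ‖x‖ + ‖y‖ := norm_sub_le _ _
    _ ≤ B + ‖y‖ := by linarith

lemma d2_bd (hh : 0 < h) (hν : PB B ν) (j : Fin k) (y : E k) :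
    |d2 h ν j y| ≤ (((B + ‖y‖) / h) ^ 2 + 1 / h) * zn h ν y := by
  rw [← Real.norm_eq_abs, d2, zn_eq, ← integral_const_mul]
  refine norm_integral_le_of_norm_le ((Kn_int hh y).const_mul _) ?_
  filter_upwards [hν.bdd] with x hx
  have hK := Kn_pos h x y
  rw [K2, norm_mul, Real.norm_of_nonneg hK.le, mul_comm]
  apply mul_le_mul_of_nonneg_right _ hK.le
  have h1 : |(x - y) j| ≤ B + ‖y‖ := by
    calc |(x - y) j| ≤ ‖x - y‖ := coord_le j _
      _ ≤ ‖x‖ + ‖y‖ := norm_sub_le _ _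
      _ ≤ B + ‖y‖ := by linarith
  have h2 : ((x - y) j) ^ 2 ≤ (B + ‖y‖) ^ 2 := by
    rw [← sq_abs ((x - y) j)]
    exact pow_le_pow_left₀ (abs_nonneg _) h1 2
  have h3 : ((x - y) j) ^ 2 / h ^ 2 ≤ ((B + ‖y‖) / h) ^ 2 := by
    rw [div_pow]
    exact div_le_div_of_nonneg_right h2 (by positivity)
  have h4 : 0 ≤ ((x - y) j) ^ 2 / h ^ 2 := by positivity
  have h5 : 0 < 1 / h := by positivity
  rw [Real.norm_eq_abs, abs_le]
  constructor <;> linarith

/-- Gaussian majorant -/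
noncomputable def Gm (h B : ℝ) (y : E k) : ℝ :=
  Real.exp (B ^ 2 / (2 * h)) * Real.exp (-(1 / (4 * h)) * ‖y‖ ^ 2)

lemma zn_Gm (hh : 0 < h) (hν : PB B ν) (y : E k) : zn h ν y ≤ Gm h B y := by
  have h1 : zn h ν y ≤ ∫ _x, Gm h B y ∂ν := by
    rw [zn_eq]
    refine integral_mono_ae (Kn_int hh y) (integrable_const _) ?_
    filter_upwards [hν.bdd] with x hx
    rw [Kn, Gm, ← Real.exp_add, Real.exp_le_exp]
    have h2 : ‖y‖ ^ 2 ≤ 2 * ‖x‖ ^ 2 + 2 * ‖x - y‖ ^ 2 := by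
      have h3 : ‖y‖ ≤ ‖x‖ + ‖x - y‖ := by
        have := norm_sub_le x (x - y)
        rwa [sub_sub_cancel] at this
      have h4 : ‖y‖ ^ 2 ≤ (‖x‖ + ‖x - y‖) ^ 2 := pow_le_pow_left₀ (norm_nonneg _) h3 2
      nlinarith [sq_nonneg (‖x‖ - ‖x - y‖)]
    have h5 : ‖x‖ ^ 2 ≤ B ^ 2 := pow_le_pow_left₀ (norm_nonneg _) hx 2
    have h6 : -(‖x - y‖ ^ 2 / (2 * h)) - (B ^ 2 / (2 * h) + -(1 / (4 * h)) * ‖y‖ ^ 2) =
        (‖y‖ ^ 2 - 2 * ‖x - y‖ ^ 2 - 2 * B ^ 2) / (4 * h) := by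
      field_simp
      ring
    have h7 : (‖y‖ ^ 2 - 2 * ‖x - y‖ ^ 2 - 2 * B ^ 2) / (4 * h) ≤ 0 :=
      div_nonpos_of_nonpos_of_nonneg (by linarith) (by positivity)
    linarith
  simpa using h1

/-- polynomial factor -/
noncomputable def Pm (h B : ℝ) (y : E k) : ℝ := ((B + ‖y‖) / h) ^ 2 + 1 / h + 1

lemma Pm_cont (h B : ℝ) : Continuous (Pm h B : E k → ℝ) := by
  unfold Pm
  fun_prop

lemma Gm_cont (h B : ℝ) : Continuous (Gm h B : E k → ℝ) := by
  unfold Gm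
  fun_prop

lemma Gm_pos (h B : ℝ) (y : E k) : 0 < Gm h B y := by
  unfold Gm
  positivity

lemma Pm_pos (hh : 0 < h) (y : E k) : 0 < Pm h B y := by
  unfold Pm
  positivity

lemma maj_int (hh : 0 < h) : Integrable fun y : E k => Pm h B y * Gm h B y := by
  have h1 : Integrable fun y : E k => Real.exp (-(1 / (8 * h)) * ‖y‖ ^ 2) :=
    Pool.Agent.H888R2.KT.N0x.gauss_int (κ := Fin k) (1 / (8 * h)) (by positivity)
  set C : ℝ := (2 * B ^ 2 / h ^ 2 + 1 / h + 1) + 16 / h with hC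
  refine Integrable.mono' (h1.const_mul (C * Real.exp (B ^ 2 / (2 * h))))
    ((Pm_cont h B).mul (Gm_cont h B)).aestronglyMeasurable
    (Filter.Eventually.of_forall fun y => ?_)
  rw [Real.norm_of_nonneg (mul_pos (Pm_pos hh y) (Gm_pos h B y)).le]
  have h2 : Pm h B y ≤ C * Real.exp ((1 / (8 * h)) * ‖y‖ ^ 2) := by
    have h3 : Pm h B y ≤ (2 * B ^ 2 / h ^ 2 + 1 / h + 1) + 2 * ‖y‖ ^ 2 / h ^ 2 := by
      have h4 : (B + ‖y‖) ^ 2 ≤ 2 * B ^ 2 + 2 * ‖y‖ ^ 2 := by nlinarith [sq_nonneg (B - ‖y‖)]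
      have h5 : ((B + ‖y‖) / h) ^ 2 ≤ (2 * B ^ 2 + 2 * ‖y‖ ^ 2) / h ^ 2 := by
        rw [div_pow]
        exact div_le_div_of_nonneg_right h4 (by positivity)
      have h6 : (2 * B ^ 2 + 2 * ‖y‖ ^ 2) / h ^ 2 = 2 * B ^ 2 / h ^ 2 + 2 * ‖y‖ ^ 2 / h ^ 2 := by
        ring
      rw [Pm]
      linarith
    have h7 : 2 * ‖y‖ ^ 2 / h ^ 2 = 16 / h * ((1 / (8 * h)) * ‖y‖ ^ 2) := by
      field_simp
      ring
    have h8 := Real.add_one_le_exp ((1 / (8 * h)) * ‖y‖ ^ 2)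
    have h9 : 1 ≤ Real.exp ((1 / (8 * h)) * ‖y‖ ^ 2) := Real.one_le_exp (by positivity)
    have h10 : (1 / (8 * h)) * ‖y‖ ^ 2 ≤ Real.exp ((1 / (8 * h)) * ‖y‖ ^ 2) := by linarith
    have h11 : 0 ≤ 2 * B ^ 2 / h ^ 2 + 1 / h + 1 := by positivity
    have h12 : (0 : ℝ) ≤ 16 / h := by positivity
    calc Pm h B y ≤ (2 * B ^ 2 / h ^ 2 + 1 / h + 1) + 16 / h * ((1 / (8 * h)) * ‖y‖ ^ 2) := by
          rw [← h7]; exact h3
      _ ≤ (2 * B ^ 2 / h ^ 2 + 1 / h + 1) * Real.exp ((1 / (8 * h)) * ‖y‖ ^ 2) +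
          16 / h * Real.exp ((1 / (8 * h)) * ‖y‖ ^ 2) :=
          add_le_add (le_mul_of_one_le_right h11 h9) (mul_le_mul_of_nonneg_left h10 h12)
      _ = C * Real.exp ((1 / (8 * h)) * ‖y‖ ^ 2) := by rw [hC]; ring
  calc Pm h B y * Gm h B y ≤ C * Real.exp ((1 / (8 * h)) * ‖y‖ ^ 2) * Gm h B y :=
        mul_le_mul_of_nonneg_right h2 (Gm_pos h B y).le
    _ = C * Real.exp (B ^ 2 / (2 * h)) *
        (Real.exp ((1 / (8 * h)) * ‖y‖ ^ 2) * Real.exp (-(1 / (4 * h)) * ‖y‖ ^ 2)) := by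
          rw [Gm]; ring
    _ = C * Real.exp (B ^ 2 / (2 * h)) * Real.exp (-(1 / (8 * h)) * ‖y‖ ^ 2) := by
          rw [← Real.exp_add]
          congr 2
          field_simp
          ring

/-! ### integration by parts -/

/-- `√(za zb)` -/
noncomputable def qq (h : ℝ) (νa νb : Measure (E k)) (y : E k) : ℝ :=
  Real.sqrt (zn h νa y * zn h νb y)

/-- the half difference of the logarithmic derivatives -/
noncomputable def sj (h : ℝ) (νa νb : Measure (E k)) (j : Fin k) (y : E k) : ℝ :=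
  1 / 2 * (d1 h νb j y / zn h νb y - d1 h νa j y / zn h νa y)

section two

variable {ν₁ ν₂ : Measure (E k)} [IsProbabilityMeasure ν₁] [IsProbabilityMeasure ν₂]

lemma zn_cont (hh : 0 < h) : Continuous (zn h ν₁) := (zn_c1 hh).continuous

lemma qq_cont (hh : 0 < h) : Continuous (qq h ν₁ ν₂) :=
  Real.continuous_sqrt.comp ((zn_cont hh).mul (zn_cont hh))

lemma qq_pos (hh : 0 < h) (y : E k) : 0 < qq h ν₁ ν₂ y :=
  Real.sqrt_pos.2 (mul_pos (zn_pos hh y) (zn_pos hh y))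

lemma qq_Gm (hh : 0 < h) (h1 : PB B ν₁) (h2 : PB B ν₂) (y : E k) : qq h ν₁ ν₂ y ≤ Gm h B y := by
  rw [qq, Real.sqrt_le_left (Gm_pos h B y).le, pow_two]
  exact mul_le_mul (zn_Gm hh h1 y) (zn_Gm hh h2 y) (zn_pos hh y).le (Gm_pos h B y).le

lemma qq_symm (y : E k) : qq h ν₁ ν₂ y = qq h ν₂ ν₁ y := by rw [qq, qq, mul_comm]

lemma sj_symm (j : Fin k) (y : E k) : sj h ν₁ ν₂ j y = -sj h ν₂ ν₁ j y := by
  rw [sj, sj]; ring

lemma sj_cont (hh : 0 < h) (j : Fin k) : Continuous (sj h ν₁ ν₂ j) := by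
  unfold sj
  refine continuous_const.mul (Continuous.sub ?_ ?_)
  · exact (d1_cont hh j).div (zn_cont hh) fun y => (zn_pos hh y).ne'
  · exact (d1_cont hh j).div (zn_cont hh) fun y => (zn_pos hh y).ne'

lemma d1z_bd (hh : 0 < h) (h1 : PB B ν₁) (j : Fin k) (y : E k) :
    |d1 h ν₁ j y / zn h ν₁ y| ≤ (B + ‖y‖) / h := by
  have hz : 0 < zn h ν₁ y := zn_pos hh y
  rw [abs_div, abs_of_pos hz, div_le_iff₀ hz]
  exact d1_bd hh h1 j y

lemma d2z_bd (hh : 0 < h) (h1 : PB B ν₁) (j : Fin k) (y : E k) :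
    |d2 h ν₁ j y / zn h ν₁ y| ≤ Pm h B y := by
  have hz : 0 < zn h ν₁ y := zn_pos hh y
  rw [abs_div, abs_of_pos hz, div_le_iff₀ hz]
  refine (d2_bd hh h1 j y).trans (mul_le_mul_of_nonneg_right ?_ hz.le)
  rw [Pm]; linarith

lemma sj_bd (hh : 0 < h) (h1 : PB B ν₁) (h2 : PB B ν₂) (j : Fin k) (y : E k) :
    |sj h ν₁ ν₂ j y| ≤ (B + ‖y‖) / h := by
  have e1 := abs_le.1 (d1z_bd hh h1 j y)
  have e2 := abs_le.1 (d1z_bd hh h2 j y)
  rw [sj, abs_le]
  constructor <;> linarith [e1.1, e1.2, e2.1, e2.2]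

/-- `√(z₂ / z₁)` -/
noncomputable def Fa (h : ℝ) (ν₁ ν₂ : Measure (E k)) (y : E k) : ℝ :=
  Real.sqrt (zn h ν₂ y / zn h ν₁ y)

lemma Fa_mul (hh : 0 < h) (y : E k) : Fa h ν₁ ν₂ y * zn h ν₁ y = qq h ν₁ ν₂ y := by
  have hz : 0 < zn h ν₁ y := zn_pos hh y
  have hz2 : 0 < zn h ν₂ y := zn_pos hh y
  rw [Fa, qq, ← Real.sqrt_sq hz.le, ← Real.sqrt_mul (by positivity), Real.sqrt_sq hz.le]
  congr 1
  field_simp

lemma Fa_line (hh : 0 < h) (j : Fin k) (y : E k) :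
    HasLineDerivAt ℝ (Fa h ν₁ ν₂) (Fa h ν₁ ν₂ y * sj h ν₁ ν₂ j y) y (ev j) := by
  have hz : 0 < zn h ν₁ y := zn_pos hh y
  have hz2 : 0 < zn h ν₂ y := zn_pos hh y
  have h1 : HasLineDerivAt ℝ (zn h ν₁) (d1 h ν₁ j y) y (ev j) := by
    rw [← d1_eq hh]
    exact ((zn_c1 hh).differentiable (by norm_num) y).hasFDerivAt.hasLineDerivAt _
  have h2 : HasLineDerivAt ℝ (zn h ν₂) (d1 h ν₂ j y) y (ev j) := by
    rw [← d1_eq hh]
    exact ((zn_c1 hh).differentiable (by norm_num) y).hasFDerivAt.hasLineDerivAt _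
  unfold HasLineDerivAt at h1 h2 ⊢
  have hy : y + (0 : ℝ) • ev j = y := by simp
  have h3 := (h2.div h1 (zn_pos hh _).ne').sqrt (div_pos (zn_pos hh _) (zn_pos hh _)).ne'
  refine h3.congr_deriv ?_
  simp only [Pi.div_apply, hy]
  rw [Fa, sj]
  have hs : 0 < Real.sqrt (zn h ν₂ y / zn h ν₁ y) := Real.sqrt_pos.2 (div_pos hz2 hz)
  have hs2 : Real.sqrt (zn h ν₂ y / zn h ν₁ y) ^ 2 = zn h ν₂ y / zn h ν₁ y :=
    Real.sq_sqrt (div_pos hz2 hz).le
  rw [div_eq_iff (by positivity)]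
  have e : ∀ s : ℝ, s * (1 / 2 * (d1 h ν₂ j y / zn h ν₂ y - d1 h ν₁ j y / zn h ν₁ y)) * (2 * s) =
      s ^ 2 * (d1 h ν₂ j y / zn h ν₂ y - d1 h ν₁ j y / zn h ν₁ y) := fun s => by ring
  rw [e, hs2]
  field_simp

lemma poly1 (hh : 0 < h) (h1 : PB B ν₁) (y : E k) : 0 ≤ (B + ‖y‖) / h := by
  obtain ⟨x, hx⟩ := h1.bdd.exists
  have : 0 ≤ B := (norm_nonneg x).trans hx
  positivity

lemma poly2 (hh : 0 < h) (y : E k) : (B + ‖y‖) / h ≤ Pm h B y := by
  have h3 : 0 < 1 / h := by positivity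
  rw [Pm]
  nlinarith [sq_nonneg ((B + ‖y‖) / h - 1)]

lemma poly3 (hh : 0 < h) (y : E k) : ((B + ‖y‖) / h) ^ 2 ≤ Pm h B y := by
  have h3 : 0 < 1 / h := by positivity
  rw [Pm]
  linarith

lemma maj_of (hh : 0 < h) (h1 : PB B ν₁) (h2 : PB B ν₂) {g : E k → ℝ} (hg : Continuous g)
    (hb : ∀ y, |g y| ≤ Pm h B y) : Integrable fun y => qq h ν₁ ν₂ y * g y := by
  refine (maj_int (B := B) hh).mono' ((qq_cont hh).mul hg).aestronglyMeasurable
    (Filter.Eventually.of_forall fun y => ?_)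
  rw [norm_mul, Real.norm_of_nonneg (qq_pos hh y).le, Real.norm_eq_abs, mul_comm]
  exact mul_le_mul (hb y) (qq_Gm hh h1 h2 y) (qq_pos hh y).le (Pm_pos hh y).le

lemma i1 (hh : 0 < h) (h1 : PB B ν₁) (h2 : PB B ν₂) (j : Fin k) :
    Integrable fun y => qq h ν₁ ν₂ y * (d2 h ν₁ j y / zn h ν₁ y) :=
  maj_of hh h1 h2 ((d2_cont hh j).div (zn_cont hh) fun y => (zn_pos hh y).ne')
    fun y => d2z_bd hh h1 j y

lemma i2 (hh : 0 < h) (h1 : PB B ν₁) (h2 : PB B ν₂) (j : Fin k) :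
    Integrable fun y => qq h ν₁ ν₂ y * (sj h ν₁ ν₂ j y * (d1 h ν₁ j y / zn h ν₁ y)) := by
  refine maj_of hh h1 h2 ((sj_cont hh j).mul
    ((d1_cont hh j).div (zn_cont hh) fun y => (zn_pos hh y).ne')) fun y => ?_
  rw [abs_mul]
  calc |sj h ν₁ ν₂ j y| * |d1 h ν₁ j y / zn h ν₁ y| ≤ ((B + ‖y‖) / h) * ((B + ‖y‖) / h) :=
        mul_le_mul (sj_bd hh h1 h2 j y) (d1z_bd hh h1 j y) (abs_nonneg _) (poly1 hh h1 y)
    _ = ((B + ‖y‖) / h) ^ 2 := by ring
    _ ≤ _ := poly3 hh y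

lemma i3 (hh : 0 < h) (h1 : PB B ν₁) (h2 : PB B ν₂) (j : Fin k) :
    Integrable fun y => qq h ν₁ ν₂ y * (d1 h ν₁ j y / zn h ν₁ y) :=
  maj_of hh h1 h2 ((d1_cont hh j).div (zn_cont hh) fun y => (zn_pos hh y).ne')
    fun y => (d1z_bd hh h1 j y).trans (poly2 hh y)

lemma i4 (hh : 0 < h) (h1 : PB B ν₁) (h2 : PB B ν₂) (j : Fin k) :
    Integrable fun y => qq h ν₁ ν₂ y * sj h ν₁ ν₂ j y ^ 2 := by
  refine maj_of hh h1 h2 ((sj_cont hh j).pow 2) fun y => ?_
  rw [abs_pow]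
  exact (pow_le_pow_left₀ (abs_nonneg _) (sj_bd hh h1 h2 j y) 2).trans (poly3 hh y)

lemma ibp (hh : 0 < h) (h1 : PB B ν₁) (h2 : PB B ν₂) (j : Fin k) :
    ∫ y, qq h ν₁ ν₂ y * (d2 h ν₁ j y / zn h ν₁ y) =
      -∫ y, qq h ν₁ ν₂ y * (sj h ν₁ ν₂ j y * (d1 h ν₁ j y / zn h ν₁ y)) := by
  have e0 : ∀ y, qq h ν₁ ν₂ y * (d2 h ν₁ j y / zn h ν₁ y) = Fa h ν₁ ν₂ y * d2 h ν₁ j y := by
    intro y
    have hz : zn h ν₁ y ≠ 0 := (zn_pos hh y).ne'
    rw [← Fa_mul hh]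
    field_simp
  have e1 : ∀ y, qq h ν₁ ν₂ y * (sj h ν₁ ν₂ j y * (d1 h ν₁ j y / zn h ν₁ y)) =
      (Fa h ν₁ ν₂ y * sj h ν₁ ν₂ j y) * d1 h ν₁ j y := by
    intro y
    have hz : zn h ν₁ y ≠ 0 := (zn_pos hh y).ne'
    rw [← Fa_mul hh]
    field_simp
  have e2 : ∀ y, qq h ν₁ ν₂ y * (d1 h ν₁ j y / zn h ν₁ y) = Fa h ν₁ ν₂ y * d1 h ν₁ j y := by
    intro y
    have hz : zn h ν₁ y ≠ 0 := (zn_pos hh y).ne'
    rw [← Fa_mul hh]
    field_simp
  have j1 := i1 hh h1 h2 j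
  have j2 := i2 hh h1 h2 j
  have j3 := i3 hh h1 h2 j
  simp only [e0] at j1 ⊢
  simp only [e1] at j2 ⊢
  simp only [e2] at j3
  exact integral_bilinear_hasLineDerivAt_right_eq_neg_left_of_integrable
    (B := ContinuousLinearMap.mul ℝ ℝ) (v := ev j) j2 j1 j3
    (fun y _ => Fa_line hh j y) (fun y _ => d1_line hh j y)

end two

/-- KM13b -/
theorem t_DA2 : S_DA2 := by
  intro k B h νa νb hh hB ha hb
  have := ha.prob
  have := hb.prob
  have hsd : ∀ y, ‖sd h νa νb y‖ ^ 2 = ∑ j, sj h νa νb j y ^ 2 := by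
    intro y
    rw [dual_norm_sq]
    refine Finset.sum_congr rfl fun j _ => ?_
    congr 1
    rw [sd]
    simp only [smul_apply, sub_apply, smul_eq_mul, d1_eq hh, sj]
    ring
  have e1 : (fun y => Real.sqrt (zn h νa y * zn h νb y) * ‖sd h νa νb y‖ ^ 2) =
      fun y => ∑ j, qq h νa νb y * sj h νa νb j y ^ 2 := by
    funext y
    rw [hsd, Finset.mul_sum]
    rfl
  have hI4 := fun j => i4 hh ha hb j
  rw [e1]
  refine ⟨integrable_finsetSum _ fun j _ => hI4 j, ?_⟩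
  have e2 : (fun y => Real.sqrt (zn h νa y * zn h νb y) *
      (lz h νa y / zn h νa y + lz h νb y / zn h νb y)) =
      fun y => ∑ j, (qq h νa νb y * (d2 h νa j y / zn h νa y) +
        qq h νb νa y * (d2 h νb j y / zn h νb y)) := by
    funext y
    rw [lz_eq hh, lz_eq hh, Finset.sum_div, Finset.sum_div, ← Finset.sum_add_distrib,
      Finset.mul_sum]
    refine Finset.sum_congr rfl fun j _ => ?_
    rw [qq_symm (ν₁ := νb)]
    rw [qq]
    ring
  have hI5 : ∀ j, Integrable fun y => qq h νa νb y * (d2 h νa j y / zn h νa y) +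
      qq h νb νa y * (d2 h νb j y / zn h νb y) := fun j => (i1 hh ha hb j).add (i1 hh hb ha j)
  rw [e2, integral_finsetSum _ fun j _ => hI5 j,
    integral_finsetSum _ fun j _ => hI4 j, Finset.mul_sum]
  refine Finset.sum_congr rfl fun j _ => ?_
  rw [integral_add (i1 hh ha hb j) (i1 hh hb ha j), ibp hh ha hb, ibp hh hb ha, ← neg_add,
    ← integral_add (i2 hh ha hb j) (i2 hh hb ha j), ← integral_neg, ← integral_const_mul]
  refine integral_congr_ae (Filter.Eventually.of_forall fun y => ?_)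
  simp only
  rw [qq_symm (ν₁ := νb), sj_symm (ν₁ := νb)]
  simp only [sj]
  ring

end Pool.Agent.N264.KM
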